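import Pool.Agent.H84.Mom.Des
import Pool.Graph.R_seed8.H306R2.EvenConst

set_option autoImplicit false

/-!
Unconditional lower bounds for the high moments of zeta on the critical line, all integers `k`:
for all large `k` the `2k`-th moment is eventually at least `2.15^(k²) a_k / (k²)! (log T)^(k²)`.

The proof uses Hölder's inequality with `ζ^j`, `j = ⌊k/24⌋`, and test functions with rational
frequencies `(l/h)^{it}` whose coefficients are multiplicative functions of `h` and `l` supported on
square-free numbers with prime factors `> k²`, with weights `k ∑ w_a p^{-1/2 - r_a k² / log Y}`; the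
moments of the test functions are bounded by Euler products, the correlation is bounded below by an
Euler product up to a factor `1/2`, by exponential moment (Chernoff) bounds for the caps.
-/

open Filter

theorem Pool.Agent.Results.MP_112ba8_nt.MomentGrowth215.result :
    ∃ K : ℕ, ∀ k : ℕ, K ≤ k → ∀ᶠ T : ℝ in atTop,
      (43 / 20 : ℝ) ^ (k ^ 2) *
        ((∏' p : Nat.Primes, ((1 - 1 / (p : ℝ)) ^ (k ^ 2) *
          ∑' m : ℕ, ((m + k - 1).choose m : ℝ) ^ 2 * (1 / (p : ℝ)) ^ m)) /
            ((k ^ 2).factorial : ℝ)) * Real.log T ^ (k ^ 2) ≤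
      1 / T * ∫ t in (0:ℝ)..T, ‖riemannZeta (1 / 2 + t * Complex.I)‖ ^ (2 * k) := by
  have hlog := Pool.Agent.H84.Mom.log_cond Pool.Agent.H84.Mom.des Pool.Agent.H84.Mom.des_OK
    (by decide) 43 20 96 (by decide) (by norm_num) (by norm_num) (by norm_num)
    Pool.Agent.H84.Mom.des_R Pool.Agent.H84.Mom.des_lt
  have hmain := Pool.Agent.H84.Mom.base_main (Pool.Agent.H84.Mom.base_OK _ Pool.Agent.H84.Mom.des_OK)
    ((43 : ℕ) / (20 : ℕ) : ℝ) (by norm_num) hlog
  obtain ⟨N0, hN0⟩ := eventually_atTop.1 hmain
  refine ⟨max N0 1, fun k hk => ?_⟩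
  have hk1 : 1 ≤ k := le_trans (le_max_right _ _) hk
  have h := hN0 k (le_trans (le_max_left _ _) hk)
  rw [Pool.Agent.H306R2.aF_nat k hk1] at h
  filter_upwards [h, eventually_gt_atTop 0] with T hT hT0
  rw [one_div, ← div_eq_inv_mul, le_div_iff₀ hT0]
  refine le_trans (le_of_eq ?_) hT
  push_cast
  ring
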